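import Pool.Agent.Lib.MP_dea8c9_co.MR.Defs

/-!
# Renaming rows, columns and symbols

Model: `tr_MQOLS` in `MQBasic` (there with one equivalence).  `exists_equiv_pt`: an equivalence of finite types of the
same cardinality with `e a = b` (compose any equivalence with `Equiv.swap`).
-/

set_option autoImplicit false

namespace Pool.Agent.Lib.MP_dea8c9_co.MR

open Finset Pool.Agent.Lib.MP_dea8c9_co.MQ

theorem exists_equiv_pt {α β : Type} [Fintype α] [DecidableEq α] [Fintype β] [DecidableEq β]
    (h : Fintype.card α = Fintype.card β) (a : α) (b : β) : ∃ e : α ≃ β, e a = b := by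
  obtain ⟨e⟩ := Fintype.card_eq.1 h
  exact ⟨e.trans (Equiv.swap (e a) b), by simp⟩

private def tr3 {α β : Type} (er ec es : α ≃ β) (L : Sq α) : Sq β :=
  fun x y => es (L (er.symm x) (ec.symm y))

private theorem tr3_latin {α β : Type} (er ec es : α ≃ β) {L : Sq α} (h : IsLatin L) :
    IsLatin (tr3 er ec es L) := by
  refine ⟨fun i => ?_, fun j => ?_⟩
  · exact es.bijective.comp ((h.1 _).comp ec.symm.bijective)
  · exact es.bijective.comp ((h.2 _).comp er.symm.bijective)

private theorem tr3_cnt {α β : Type} [Fintype α] [DecidableEq α] [Fintype β] [DecidableEq β]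
    (er ec es : α ≃ β) (L M : Sq α) (u v : β) :
    cnt (tr3 er ec es L) (tr3 er ec es M) u v = cnt L M (es.symm u) (es.symm v) := by
  unfold cnt
  refine Finset.card_bij (fun p _ => (er.symm p.1, ec.symm p.2)) ?_ ?_ ?_
  · intro p hp
    have hp' := (Finset.mem_filter.1 hp).2
    refine Finset.mem_filter.2 ⟨mem_univ _, ?_, ?_⟩
    · rw [← hp'.1]; simp [tr3]
    · rw [← hp'.2]; simp [tr3]
  · intro p _ p' _ h
    simp only [Prod.mk.injEq, EmbeddingLike.apply_eq_iff_eq] at h
    exact Prod.ext h.1 h.2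
  · intro p hp
    have hp' := (Finset.mem_filter.1 hp).2
    refine ⟨(er p.1, ec p.2), Finset.mem_filter.2 ⟨mem_univ _, ?_, ?_⟩, by simp⟩
    · simp [tr3, hp'.1]
    · simp [tr3, hp'.2]

/-- A family which agrees in one cell can be moved to any set of the same size and any cell and symbol. -/
theorem move {α β : Type} [Fintype α] [DecidableEq α] [Fintype β] [DecidableEq β]
    (h : Fintype.card α = Fintype.card β) {N : ℕ} {L : Fin N → Sq α} (hL : IsMQOLS L) {i j u : α}
    (hu : ∀ k, L k i j = u) (b : β) :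
    ∃ M : Fin N → Sq β, IsMQOLS M ∧ ∀ k, M k b b = b := by
  obtain ⟨er, hr⟩ := exists_equiv_pt h i b
  obtain ⟨ec, hc⟩ := exists_equiv_pt h j b
  obtain ⟨es, hs⟩ := exists_equiv_pt h u b
  refine ⟨fun k => tr3 er ec es (L k), ⟨fun k => tr3_latin er ec es (hL.1 k), fun k l hkl => ⟨fun w => ?_,
    fun w v hwv => ?_⟩⟩, fun k => ?_⟩
  · rw [tr3_cnt]; exact (hL.2 k l hkl).1 _
  · rw [tr3_cnt, tr3_cnt]
    exact (hL.2 k l hkl).2 _ _ (fun h' => hwv (es.symm.injective h'))
  · have e1 : er.symm b = i := by rw [← hr, Equiv.symm_apply_apply]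
    have e2 : ec.symm b = j := by rw [← hc, Equiv.symm_apply_apply]
    show es (L k (er.symm b) (ec.symm b)) = b
    rw [e1, e2, hu k, hs]

end Pool.Agent.Lib.MP_dea8c9_co.MR
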