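import Pool.Agent.Lib.MP_dea8c9_co.MR.SigB

/-!
# The quadratic functions with odd signs

See the head of `SigB`; `k true = 1`, `k false = nu`, `e true = 0`, `e false = (1/4 - nu/4) / (4 nu)` as in `Sig`,
signs from `sgn_two` with `c = -1/(4 k_s)`.
-/

set_option autoImplicit false

namespace Pool.Agent.Lib.MP_dea8c9_co.MR

variable {F : Type} [Field F] [Fintype F] [DecidableEq F]

theorem exists_signs_odd (hF : (2 : F) ≠ 0) (η : Bool) :
    ∃ (k e : Bool → F) (ep : Bool → F → Bool), (∀ s, k s ≠ 0) ∧ (∀ s, ep s 0 = η) ∧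
      (∀ s a, a ≠ 0 → ep s (-a) = !ep s a) ∧
      Function.Injective fun p : F × Bool => (al k e p.2 p.1, (ep p.2 p.1 == p.2)) := by
  classical
  have h4 : (4 : F) ≠ 0 := by
    have h : (4 : F) = 2 * 2 := by norm_num
    rw [h]; exact mul_ne_zero hF hF
  obtain ⟨nu, hnu⟩ : ∃ a : F, ¬ IsSquare a := by
    apply FiniteField.exists_nonsquare
    intro h
    apply hF
    have h3 := (ringChar.spec F 2).2 (by rw [h])
    simpa using h3
  have hnu0 : nu ≠ 0 := by
    rintro rfl
    exact hnu ⟨0, by simp⟩
  set k : Bool → F := fun s => if s then 1 else nu with hk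
  set e : Bool → F := fun s => if s then 0 else (1 / 4 - nu / 4) / (4 * nu) with he
  have hk0 : ∀ s, k s ≠ 0 := by
    intro s
    cases s
    · simpa [hk] using hnu0
    · simp [hk]
  set w : Bool → F → F := fun s a => 2 * k s * a + 1 / 2 with hw
  have hwsq : ∀ s a, w s a ^ 2 = k s * (4 * al k e s a + 1 / 4) := by
    intro s a
    cases s
    · simp only [hw, hk, he, al, Bool.false_eq_true, if_false]
      field_simp
      ring
    · simp only [hw, hk, he, al, if_true]
      field_simp
      ring
  set c : Bool → F := fun s => -1 / (4 * k s) with hc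
  have hc0 : ∀ s, c s ≠ 0 := by
    intro s
    exact div_ne_zero (neg_ne_zero.2 one_ne_zero) (mul_ne_zero h4 (hk0 s))
  have hwc : ∀ s a, w s a = 2 * k s * (a - c s) := by
    intro s a
    have := hk0 s
    simp only [hw, hc]
    have h8 : (4 : F) = 2 * 2 := by norm_num
    rw [h8]
    field_simp
    ring
  have hwz : ∀ s a, w s a = 0 → a = c s := by
    intro s a h
    rw [hwc] at h
    rcases mul_eq_zero.1 h with h | h
    · exact absurd h (mul_ne_zero hF (hk0 s))
    · exact sub_eq_zero.1 h
  choose ep e0 ec eo e2 using fun s => sgn_two hF (hc0 s) η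
  refine ⟨k, e, ep, hk0, e0, eo, ?_⟩
  have key : ∀ a a' : F, al k e true a = al k e false a' → w true a = 0 ∧ w false a' = 0 := by
    intro a a' h
    have h1 := hwsq true a
    have h2 := hwsq false a'
    rw [← h] at h2
    have hkt : k true = 1 := by simp [hk]
    have hkf : k false = nu := by simp [hk]
    rw [hkt, one_mul] at h1
    rw [hkf, ← h1] at h2
    have h3 : w true a = 0 := by
      by_contra h0
      apply hnu
      refine ⟨w false a' / w true a, ?_⟩
      field_simp
      linear_combination -h2
    refine ⟨h3, ?_⟩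
    rw [h3] at h2
    have h5 : w false a' ^ 2 = 0 := by rw [h2]; ring
    exact pow_eq_zero_iff (two_ne_zero) |>.1 h5
  rintro ⟨a, s⟩ ⟨a', t⟩ h
  simp only [Prod.mk.injEq] at h
  obtain ⟨h1, h2⟩ := h
  by_cases hst : s = t
  · subst hst
    have h3 : w s a ^ 2 = w s a' ^ 2 := by rw [hwsq, hwsq, h1]
    have hinj : ∀ x y, w s x = w s y → x = y := by
      intro x y hxy
      rw [hwc, hwc] at hxy
      have := mul_left_cancel₀ (mul_ne_zero hF (hk0 s)) hxy
      exact sub_left_injective this
    rcases sq_eq_sq_iff_eq_or_eq_neg.1 h3 with h5 | h5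
    · rw [hinj a a' h5]
    · by_cases h0 : w s a' = 0
      · rw [h0, neg_zero] at h5
        rw [hinj a a' (by rw [h5, h0])]
      · exfalso
        have h6 : a = 2 * c s - a' := by
          rw [hwc, hwc] at h5
          have h7 : 2 * k s * (a - c s) = 2 * k s * (-(a' - c s)) := by rw [h5]; ring
          have h8 := mul_left_cancel₀ (mul_ne_zero hF (hk0 s)) h7
          linear_combination h8
        have h7 : a' ≠ c s := by
          intro h8
          apply h0
          rw [hwc, h8, sub_self, mul_zero]
        rw [h6, e2 s a' h7] at h2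
        revert h2
        cases ep s a' <;> cases s <;> decide
  · exfalso
    cases s <;> cases t
    · exact hst rfl
    · obtain ⟨h3, h4⟩ := key a' a h1.symm
      rw [hwz _ _ h3, hwz _ _ h4, ec, ec] at h2
      revert h2
      cases η <;> decide
    · obtain ⟨h3, h4⟩ := key a a' h1
      rw [hwz _ _ h3, hwz _ _ h4, ec, ec] at h2
      revert h2
      cases η <;> decide
    · exact hst rfl

end Pool.Agent.Lib.MP_dea8c9_co.MR
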