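import Pool.Agent.Lib.MP_dea8c9_co.MR.Cls

/-!
# The slopes for odd signs

`P` = the nonzero `a` with `ep a = true`: `2 |P| + 1 ≤ m`.  `C` = the `x ≠ 0, 1` with `sg x = true`, `sg (1 - x) = false`:
`4 |C| + 3 ≥ q ≥ 2 m + 1` (`class_card`), so `|P| ≤ |C|`.  Take an injection `f : P → C` and put `g a = f a` for `a ∈ P`,
`g a = 1 - f (-a)` for `-a ∈ P`, `g 0 = 1/2` (`sg (1/2) = sg (1 - 1/2)`, so `1/2` is not of the form `f a` or `1 - f a`).
-/

set_option autoImplicit false

namespace Pool.Agent.Lib.MP_dea8c9_co.MR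

open Finset

variable {F K : Type} [Field F] [Fintype F] [DecidableEq F] [Field K] [Fintype K] [DecidableEq K]

theorem exists_slopes_odd (hF : (2 : F) ≠ 0) (hq : Fintype.card K % 4 = 3)
    (hm : 2 * Fintype.card F + 1 ≤ Fintype.card K) (ep : F → Bool) (h0 : ep 0 = sg (1 / 2 : K))
    (hodd : ∀ a, a ≠ 0 → ep (-a) = !ep a) :
    ∃ g : F → K, Function.Injective g ∧ (∀ a, g a ≠ 0) ∧ (∀ a, g (-a) = 1 - g a) ∧
      ∀ a, sg (g a) = ep a := by
  classical
  have _ := hF
  have h2K : (2 : K) ≠ 0 := by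
    refine Ring.two_ne_zero fun e => ?_
    have h1 := FiniteField.even_card_iff_char_two.1 e
    omega
  have hhalf : (1 : K) - 1 / 2 = 1 / 2 := by
    field_simp
    ring
  obtain ⟨P, hP⟩ : ∃ P : Finset F, ∀ a, a ∈ P ↔ a ≠ 0 ∧ ep a = true :=
    ⟨univ.filter fun a => a ≠ 0 ∧ ep a = true, fun a => by simp⟩
  obtain ⟨C, hC, hCc⟩ : ∃ C : Finset K, (∀ x, x ∈ C ↔ x ≠ 0 ∧ x ≠ 1 ∧ sg x = true ∧
      sg (1 - x) = false) ∧ Fintype.card K ≤ 4 * C.card + 3 :=
    ⟨univ.filter fun x : K => x ≠ 0 ∧ x ≠ 1 ∧ sg x = true ∧ sg (1 - x) = false,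
      fun x => by simp, class_card hq true false⟩
  have hneg : ∀ a, a ≠ 0 → a ∉ P → -a ∈ P := by
    intro a ha haP
    rw [hP]
    refine ⟨neg_ne_zero.2 ha, ?_⟩
    rw [hodd a ha]
    cases h : ep a with
    | false => rfl
    | true => exact absurd ((hP a).2 ⟨ha, h⟩) haP
  have hnegP : ∀ a, a ∈ P → -a ∉ P := by
    intro a ha haP
    rw [hP] at ha haP
    rw [hodd a ha.1, ha.2] at haP
    simp at haP
  have hPcard : 2 * P.card + 1 ≤ Fintype.card F := by
    have h1 : (P.image fun a => -a).card = P.card :=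
      Finset.card_image_of_injective _ neg_injective
    have h2 : Disjoint P (P.image fun a => -a) := by
      rw [Finset.disjoint_left]
      intro a ha hb
      obtain ⟨b, hb1, hb2⟩ := mem_image.1 hb
      apply hnegP b hb1
      rw [hb2]
      exact ha
    have h3 : (P ∪ P.image fun a => -a).card = 2 * P.card := by
      rw [card_union_of_disjoint h2, h1]
      ring
    have h4 : (0 : F) ∉ P ∪ P.image fun a => -a := by
      intro h
      rcases mem_union.1 h with h | h
      · exact ((hP 0).1 h).1 rfl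
      · obtain ⟨b, hb1, hb2⟩ := mem_image.1 h
        exact ((hP b).1 hb1).1 (neg_eq_zero.1 hb2)
    rw [← h3, ← Finset.card_insert_of_notMem h4]
    exact Finset.card_le_univ _
  have hle : P.card ≤ C.card := by omega
  obtain ⟨f⟩ : Nonempty (P ↪ C) :=
    Function.Embedding.nonempty_of_card_le (by simpa using hle)
  obtain ⟨G, hG, hGi⟩ : ∃ G : F → K, (∀ a, a ∈ P → G a ∈ C) ∧
      ∀ a, a ∈ P → ∀ b, b ∈ P → G a = G b → a = b := by
    refine ⟨fun a => if h : a ∈ P then (f ⟨a, h⟩ : K) else 0, ?_, ?_⟩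
    · intro a ha
      simp only [dif_pos ha]
      exact (f ⟨a, ha⟩).2
    · intro a ha b hb h
      simp only [dif_pos ha, dif_pos hb] at h
      have := f.injective (Subtype.ext h)
      exact congrArg Subtype.val this
  let g : F → K := fun a => if a = 0 then 1 / 2 else if a ∈ P then G a else 1 - G (-a)
  have g0 : g 0 = 1 / 2 := if_pos rfl
  have gP : ∀ a, a ∈ P → g a = G a := by
    intro a ha
    have h1 : a ≠ 0 := ((hP a).1 ha).1
    show (if a = 0 then (1 / 2 : K) else if a ∈ P then G a else 1 - G (-a)) = G a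
    rw [if_neg h1, if_pos ha]
  have gN : ∀ a, a ≠ 0 → a ∉ P → g a = 1 - G (-a) := by
    intro a h1 ha
    show (if a = 0 then (1 / 2 : K) else if a ∈ P then G a else 1 - G (-a)) = 1 - G (-a)
    rw [if_neg h1, if_neg ha]
  have epN : ∀ a, a ≠ 0 → a ∉ P → ep a = false := by
    intro a h1 ha
    cases h : ep a with
    | false => rfl
    | true => exact absurd ((hP a).2 ⟨h1, h⟩) ha
  have hsg : ∀ a, sg (g a) = ep a := by
    intro a
    by_cases h1 : a = 0
    · rw [h1, g0, h0]
    · by_cases ha : a ∈ P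
      · rw [gP a ha, ((hP a).1 ha).2]
        exact ((hC _).1 (hG a ha)).2.2.1
      · rw [gN a h1 ha, epN a h1 ha]
        exact ((hC _).1 (hG (-a) (hneg a h1 ha))).2.2.2
  have hrefl : ∀ a, g (-a) = 1 - g a := by
    intro a
    by_cases h1 : a = 0
    · rw [h1, neg_zero, g0, hhalf]
    · by_cases ha : a ∈ P
      · rw [gP a ha, gN (-a) (neg_ne_zero.2 h1) (hnegP a ha), neg_neg]
      · rw [gN a h1 ha, gP (-a) (hneg a h1 ha)]
        ring
  have hsame : ∀ a, g a = 1 / 2 → a = 0 := by
    intro a h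
    by_contra h1
    have h2 := hsg (-a)
    rw [hrefl a, h, hhalf, hodd a h1, ← h, hsg a] at h2
    revert h2
    cases ep a <;> decide
  refine ⟨g, ?_, ?_, hrefl, hsg⟩
  · intro a b hab
    by_cases ha0 : a = 0
    · rw [ha0, g0] at hab
      rw [ha0, hsame b hab.symm]
    by_cases hb0 : b = 0
    · rw [hb0, g0] at hab
      rw [hb0, hsame a hab]
    by_cases ha : a ∈ P
    · by_cases hb : b ∈ P
      · rw [gP a ha, gP b hb] at hab
        exact hGi a ha b hb hab
      · exfalso
        have h1 := hsg a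
        rw [hab, hsg b, epN b hb0 hb, ((hP a).1 ha).2] at h1
        exact absurd h1 (by decide)
    · by_cases hb : b ∈ P
      · exfalso
        have h1 := hsg b
        rw [← hab, hsg a, epN a ha0 ha, ((hP b).1 hb).2] at h1
        exact absurd h1 (by decide)
      · rw [gN a ha0 ha, gN b hb0 hb] at hab
        have h1 : G (-a) = G (-b) := by linear_combination -hab
        exact neg_injective (hGi _ (hneg a ha0 ha) _ (hneg b hb0 hb) h1)
  · intro a h
    by_cases h1 : a = 0
    · rw [h1, g0] at h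
      exact one_div_ne_zero h2K h
    · by_cases ha : a ∈ P
      · rw [gP a ha] at h
        exact ((hC _).1 (hG a ha)).1 h
      · rw [gN a h1 ha] at h
        exact ((hC _).1 (hG (-a) (hneg a h1 ha))).2.1 (by linear_combination -h)

end Pool.Agent.Lib.MP_dea8c9_co.MR
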