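import Pool.Agent.Lib.MP_dea8c9_co.MR.Fin
import Pool.Agent.Lib.MP_dea8c9_co.MR.SigC
import Pool.Agent.Lib.MP_dea8c9_co.MR.SloB

/-!
# The recursion for `q > 2 m`
-/

set_option autoImplicit false

namespace Pool.Agent.Lib.MP_dea8c9_co.MR

open Finset Pool.Agent.Lib.MP_dea8c9_co.MQ

theorem exists_good_odd {F K : Type} [Field F] [Fintype F] [DecidableEq F] [Field K] [Fintype K]
    [DecidableEq K] (hF : (2 : F) ≠ 0) (hq : Fintype.card K % 4 = 3)
    (hm : 2 * Fintype.card F + 1 ≤ Fintype.card K) :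
    ∃ (k e : Bool → F) (mu : Bool → F → K), Good k e mu := by
  obtain ⟨k, e, ep, hk, he, ho, hi⟩ := exists_signs_odd (F := F) hF (sg (1 / 2 : K))
  choose g h1 h2 h3 h4 using fun s =>
    exists_slopes_odd (F := F) (K := K) hF hq hm (ep s) (he s) (ho s)
  refine ⟨k, e, g, hk, h1, h2, h3, ?_⟩
  simpa only [h4] using hi

theorem recursion_fields_odd (F K : Type) [Field F] [Fintype F] [DecidableEq F] [Field K]
    [Fintype K] [DecidableEq K] (hF : (2 : F) ≠ 0) (hq : Fintype.card K % 4 = 3)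
    (hm : 2 * Fintype.card F + 1 ≤ Fintype.card K) {N n n' : ℕ} (hN : N ≤ Fintype.card F)
    (hn : n = Fintype.card F + 1) (hn' : n' = Fintype.card F * Fintype.card K + 1)
    {L : Fin N → Sq (Fin n)} (hL : IsMQOLS L) {i j u : Fin n} (hu : ∀ k, L k i j = u) :
    ∃ M : Fin N → Sq (Fin n'), IsMQOLS M ∧ ∃ i j u, ∀ k, M k i j = u := by
  obtain ⟨L1, h1, h2⟩ := move (β := Option F) (by simp [hn]) hL hu none
  obtain ⟨k, e, mu, hg⟩ := exists_good_odd (F := F) (K := K) hF hq hm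
  obtain ⟨c⟩ : Nonempty (Fin N ↪ F) := Function.Embedding.nonempty_of_card_le (by simpa using hN)
  have h3 := big_MQOLS hF hq hg h1 h2 c c.injective
  have : NeZero n' := ⟨by omega⟩
  obtain ⟨M, h4, h5⟩ := move (β := Fin n') (by simp [hn']) h3 (i := none) (j := none) (u := none)
    (fun _ => rfl) 0
  exact ⟨M, h4, 0, 0, 0, h5⟩

/-- `m` an odd prime power, `q` a prime power, `q % 4 = 3`, `q > 2 m`, `N ≤ m`. -/
theorem recursion_odd {m q N : ℕ} (hm : IsPrimePow m) (hm2 : Odd m) (hq : IsPrimePow q)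
    (hq4 : q % 4 = 3)
    (hmq : 2 * m < q) (hN : N ≤ m) {L : Fin N → Sq (Fin (m + 1))} (hL : IsMQOLS L)
    {i j u : Fin (m + 1)} (hu : ∀ k, L k i j = u) :
    ∃ M : Fin N → Sq (Fin (m * q + 1)), IsMQOLS M ∧ ∃ i j u, ∀ k, M k i j = u := by
  classical
  obtain ⟨p, a, hp, ha, rfl⟩ := hm
  obtain ⟨r, b, hr, hb, rfl⟩ := hq
  have hp' : p.Prime := Nat.prime_iff.2 hp
  have hr' : r.Prime := Nat.prime_iff.2 hr
  have : Fact p.Prime := ⟨hp'⟩
  have : Fact r.Prime := ⟨hr'⟩
  letI : Fintype (GaloisField p a) := Fintype.ofFinite _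
  letI : Fintype (GaloisField r b) := Fintype.ofFinite _
  have c1 : Fintype.card (GaloisField p a) = p ^ a := by
    rw [← Nat.card_eq_fintype_card]; exact GaloisField.card p a (by omega)
  have c2 : Fintype.card (GaloisField r b) = r ^ b := by
    rw [← Nat.card_eq_fintype_card]; exact GaloisField.card r b (by omega)
  have hF : (2 : GaloisField p a) ≠ 0 := by
    intro h2
    have h3 : ((2 : ℕ) : GaloisField p a) = 0 := by exact_mod_cast h2
    rw [CharP.cast_eq_zero_iff (GaloisField p a) p 2] at h3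
    have h4 : p = 2 := (Nat.prime_dvd_prime_iff_eq hp' Nat.prime_two).1 h3
    rw [h4] at hm2
    exact (Nat.not_even_iff_odd.2 hm2) (Nat.even_pow.2 ⟨even_two, by omega⟩)
  exact recursion_fields_odd (GaloisField p a) (GaloisField r b) hF (by rw [c2]; exact hq4)
    (by rw [c1, c2]; omega) (by rw [c1]; exact hN) (by rw [c1]) (by rw [c1, c2]) hL hu

end Pool.Agent.Lib.MP_dea8c9_co.MR
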