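import Pool.Agent.Lib.MP_dea8c9_co.MR.Defs

/-!
# The quadratic functions and the signs

`nu` a nonsquare of `F` (exists, odd characteristic: `FiniteField.exists_nonsquare`), `k true = 1`, `k false = nu`,
`e true = 0`, `e false = (1/4 - nu/4) / (4 nu)` (so that `1/4 - 4 k e = nu/4` for `s = false`).  If
`al s a = al t a'` then with `w(s,a) = 2 k_s a + 1/2`: `w^2 = 1/4 - 4 k_s e_s + 4 k_s A`, which is `1/4 + 4 A` for
`s = true` and `nu (1/4 + 4 A)` for `s = false`; so for `s ≠ t`: `w(false, a')^2 = nu w(true, a)^2`, both are `0`
(`nu` nonsquare); for `s = t`: `w = ± w'`.  Signs: choose a function `o : F → Bool` with `o (-x) = !o x` for `x ≠ 0`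
(an ordering of `F`: for instance via an equivalence with `Fin m`, `o x` = the index of `x` is less than that of `-x`), and
`ep s a = η` if `w(s,a) = 0`, else `(o (w(s,a)) == (o (1/2) == η))`; then `ep s 0 = η` and `ep` changes when `w`
changes its sign.  If `w(true,a) = 0 = w(false,a')`: the second components are `(η == true) ≠ (η == false)`.
-/

set_option autoImplicit false

namespace Pool.Agent.Lib.MP_dea8c9_co.MR

variable {F : Type} [Field F] [Fintype F] [DecidableEq F]

theorem exists_signs (hF : (2 : F) ≠ 0) (η : Bool) :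
    ∃ (k e : Bool → F) (ep : Bool → F → Bool), (∀ s, k s ≠ 0) ∧ (∀ s, ep s 0 = η) ∧
      Function.Injective fun p : F × Bool => (al k e p.2 p.1, (ep p.2 p.1 == p.2)) := by
  classical
  have h4 : (4 : F) ≠ 0 := by
    have h : (4 : F) = 2 * 2 := by norm_num
    rw [h]; exact mul_ne_zero hF hF
  obtain ⟨nu, hnu⟩ : ∃ a : F, ¬ IsSquare a := by
    apply FiniteField.exists_nonsquare
    intro h
    apply hF
    have h3 := (ringChar.spec F 2).2 (by rw [h])
    simpa using h3
  have hnu0 : nu ≠ 0 := by
    rintro rfl
    exact hnu ⟨0, by simp⟩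
  obtain ⟨o, ho⟩ : ∃ o : F → Bool, ∀ x, x ≠ 0 → o (-x) = !(o x) := by
    refine ⟨fun x => decide (Fintype.equivFin F x < Fintype.equivFin F (-x)), fun x hx => ?_⟩
    have hne : Fintype.equivFin F x ≠ Fintype.equivFin F (-x) := by
      intro h
      have h2 : x = -x := (Fintype.equivFin F).injective h
      have h3 : (2 : F) * x = 0 := by linear_combination h2
      rcases mul_eq_zero.1 h3 with h | h
      · exact hF h
      · exact hx h
    simp only [neg_neg]
    rcases lt_or_gt_of_ne hne with h | h
    · simp [h, not_lt.2 h.le]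
    · simp [h, not_lt.2 h.le]
  set k : Bool → F := fun s => if s then 1 else nu with hk
  set e : Bool → F := fun s => if s then 0 else (1 / 4 - nu / 4) / (4 * nu) with he
  have hk0 : ∀ s, k s ≠ 0 := by
    intro s
    cases s
    · simpa [hk] using hnu0
    · simp [hk]
  set w : Bool → F → F := fun s a => 2 * k s * a + 1 / 2 with hw
  have hwsq : ∀ s a, w s a ^ 2 = k s * (4 * al k e s a + 1 / 4) := by
    intro s a
    cases s
    · simp only [hw, hk, he, al, Bool.false_eq_true, if_false]
      field_simp
      ring
    · simp only [hw, hk, he, al, if_true]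
      field_simp
      ring
  have hw0 : ∀ s, w s 0 = 1 / 2 := by intro s; simp [hw]
  have hwinj : ∀ s a a', w s a = w s a' → a = a' := by
    intro s a a' h
    have h1 : 2 * k s * a = 2 * k s * a' := by
      simpa [hw] using h
    exact mul_left_cancel₀ (mul_ne_zero hF (hk0 s)) h1
  have hhalf : (1 / 2 : F) ≠ 0 := one_div_ne_zero hF
  refine ⟨k, e, fun s a => if w s a = 0 then η else (o (w s a) == (o (1 / 2) == η)), hk0, ?_, ?_⟩
  · intro s
    simp only [hw0 s, if_neg hhalf]
    cases o (1 / 2) <;> cases η <;> rfl
  · -- the mixed case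
    have key : ∀ a a' : F, al k e true a = al k e false a' → w true a = 0 ∧ w false a' = 0 := by
      intro a a' h
      have h1 := hwsq true a
      have h2 := hwsq false a'
      rw [← h] at h2
      have hkt : k true = 1 := by simp [hk]
      have hkf : k false = nu := by simp [hk]
      rw [hkt, one_mul] at h1
      rw [hkf, ← h1] at h2
      have h3 : w true a = 0 := by
        by_contra h0
        apply hnu
        refine ⟨w false a' / w true a, ?_⟩
        field_simp
        linear_combination -h2
      refine ⟨h3, ?_⟩
      rw [h3] at h2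
      have h5 : w false a' ^ 2 = 0 := by rw [h2]; ring
      exact pow_eq_zero_iff (two_ne_zero) |>.1 h5
    rintro ⟨a, s⟩ ⟨a', t⟩ h
    simp only [Prod.mk.injEq] at h
    obtain ⟨h1, h2⟩ := h
    by_cases hst : s = t
    · subst hst
      have h3 : w s a ^ 2 = w s a' ^ 2 := by rw [hwsq, hwsq, h1]
      rcases sq_eq_sq_iff_eq_or_eq_neg.1 h3 with h4 | h4
      · rw [hwinj s a a' h4]
      · by_cases h0 : w s a' = 0
        · rw [h0, neg_zero] at h4
          rw [hwinj s a a' (by rw [h4, h0])]
        · exfalso
          have h5 : w s a ≠ 0 := by rw [h4]; exact neg_ne_zero.2 h0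
          rw [if_neg h5, if_neg h0, h4, ho _ h0] at h2
          revert h2
          cases o (w s a') <;> cases o (1 / 2) <;> cases η <;> cases s <;> decide
    · exfalso
      cases s <;> cases t
      · exact hst rfl
      · obtain ⟨h3, h4⟩ := key a' a h1.symm
        rw [if_pos h3, if_pos h4] at h2
        revert h2
        cases η <;> decide
      · obtain ⟨h3, h4⟩ := key a a' h1
        rw [if_pos h3, if_pos h4] at h2
        revert h2
        cases η <;> decide
      · exact hst rfl

end Pool.Agent.Lib.MP_dea8c9_co.MR
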