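import Pool.Agent.Lib.MP_dea8c9_co.MR.Cls

/-!
# The slopes

Greedy choice.  For finsets `T` of `F` closed under `a -> -a` and containing `0`, by induction: a map `g : F → K`,
injective on `T`, with the required properties on `T`.  Step: for `a ∉ T`, (so `-a ∉ T`, `a ≠ -a`) the class with signs
`ep a`, `ep (-a)` has at least `(q-3)/4 ≥ m - 3/4` elements, so at least `m` or `m - 0`... elements not in
`g(T)`: `|T| ≤ m - 2` and `4 |class| ≥ q - 3 ≥ 4 m - 3` give `|class| ≥ m > |T|`.  Choose `x` in the class, not in `g(T)`;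
then `1 - x` is not in `g(T)` either (`g(T)` is closed under `x -> 1 - x`), `x ≠ 1 - x` since `1/2 = g 0` is in `g(T)`;
put `g a = x`, `g (-a) = 1 - x`.
-/

set_option autoImplicit false

namespace Pool.Agent.Lib.MP_dea8c9_co.MR

open Finset

variable {F K : Type} [Field F] [Fintype F] [DecidableEq F] [Field K] [Fintype K] [DecidableEq K]

private def SloP (ep : F → Bool) (T : Finset F) (g : F → K) : Prop :=
  0 ∈ T ∧ (∀ b ∈ T, -b ∈ T) ∧ (∀ b ∈ T, ∀ c ∈ T, g b = g c → b = c) ∧ (∀ b ∈ T, g b ≠ 0) ∧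
    (∀ b ∈ T, g (-b) = 1 - g b) ∧ ∀ b ∈ T, sg (g b) = ep b

private theorem slo_step (h2 : (2 : F) ≠ 0) (h2K : (2 : K) ≠ 0) (hq : Fintype.card K % 4 = 3)
    (hm : 4 * Fintype.card F ≤ Fintype.card K) {ep : F → Bool} {T : Finset F} {g : F → K}
    (h : SloP ep T g) {a : F} (ha : a ∉ T) :
    ∃ (T' : Finset F) (g' : F → K), SloP ep T' g' ∧ T ⊆ T' ∧ a ∈ T' := by
  obtain ⟨z0, hc, hi, hn, hr, hs⟩ := h
  have hna : -a ∉ T := fun e => ha (by simpa using hc _ e)
  have haa : -a ≠ a := by
    intro e
    have h3 : (2 : F) * a = 0 := by linear_combination (-1 : F) * e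
    rcases mul_eq_zero.1 h3 with h | h
    · exact h2 h
    · exact ha (by rw [h]; exact z0)
  obtain ⟨x, hx, hxT⟩ : ∃ x ∈ (univ.filter fun x : K => x ≠ 0 ∧ x ≠ 1 ∧ sg x = ep a ∧
      sg (1 - x) = ep (-a)), x ∉ T.image g := by
    apply Finset.exists_mem_notMem_of_card_lt_card
    have h1 := class_card hq (ep a) (ep (-a))
    have h3 : (T.image g).card ≤ T.card := Finset.card_image_le
    have h4 : T.card < Fintype.card F := by
      rw [← Finset.card_univ]
      exact Finset.card_lt_card (Finset.ssubset_univ_iff.2 fun e => ha (by rw [e]; exact mem_univ a))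
    omega
  obtain ⟨-, hx0, hx1, hxa, hxb⟩ := mem_filter.1 hx
  have hxg : ∀ b ∈ T, g b ≠ x := fun b hb e => hxT (mem_image.2 ⟨b, hb, e⟩)
  have hyg : ∀ b ∈ T, g b ≠ 1 - x := fun b hb e =>
    hxg (-b) (hc b hb) (by rw [hr b hb, e]; ring)
  have hxx : x ≠ 1 - x := by
    intro e
    have h5 := hr 0 z0
    rw [neg_zero] at h5
    have h6 : (2 : K) * (g 0 - x) = 0 := by linear_combination h5 - e
    rcases mul_eq_zero.1 h6 with h | h
    · exact h2K h
    · exact hxg 0 z0 (sub_eq_zero.1 h)
  let g' : F → K := fun b => if b = a then x else if b = -a then 1 - x else g b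
  have ga : g' a = x := if_pos rfl
  have gna : g' (-a) = 1 - x := by
    show (if -a = a then x else if -a = -a then 1 - x else g (-a)) = 1 - x
    rw [if_neg haa, if_pos rfl]
  have gT : ∀ b ∈ T, g' b = g b := by
    intro b hb
    have h1 : b ≠ a := fun e => ha (e ▸ hb)
    have h3 : b ≠ -a := fun e => hna (e ▸ hb)
    show (if b = a then x else if b = -a then 1 - x else g b) = g b
    rw [if_neg h1, if_neg h3]
  have hmem : ∀ b, b ∈ insert a (insert (-a) T) → b = a ∨ b = -a ∨ b ∈ T := by
    intro b hb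
    simpa only [mem_insert] using hb
  refine ⟨insert a (insert (-a) T), g', ⟨?_, ?_, ?_, ?_, ?_, ?_⟩, ?_, mem_insert_self _ _⟩
  · exact mem_insert_of_mem (mem_insert_of_mem z0)
  · intro b hb
    rcases hmem b hb with rfl | rfl | hb
    · exact mem_insert_of_mem (mem_insert_self _ _)
    · rw [neg_neg]
      exact mem_insert_self _ _
    · exact mem_insert_of_mem (mem_insert_of_mem (hc b hb))
  · intro b hb c hc' e
    rcases hmem b hb with e1 | e1 | hb <;> rcases hmem c hc' with e2 | e2 | hc'
    · rw [e1, e2]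
    · rw [e1, e2, ga, gna] at e
      exact absurd e hxx
    · rw [e1, ga, gT c hc'] at e
      exact absurd e.symm (hxg c hc')
    · rw [e1, e2, ga, gna] at e
      exact absurd e.symm hxx
    · rw [e1, e2]
    · rw [e1, gna, gT c hc'] at e
      exact absurd e.symm (hyg c hc')
    · rw [e2, ga, gT b hb] at e
      exact absurd e (hxg b hb)
    · rw [e2, gna, gT b hb] at e
      exact absurd e (hyg b hb)
    · rw [gT b hb, gT c hc'] at e
      exact hi b hb c hc' e
  · intro b hb
    rcases hmem b hb with e1 | e1 | hb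
    · rw [e1, ga]
      exact hx0
    · rw [e1, gna]
      exact sub_ne_zero.2 (Ne.symm hx1)
    · rw [gT b hb]
      exact hn b hb
  · intro b hb
    rcases hmem b hb with e1 | e1 | hb
    · rw [e1, ga, gna]
    · rw [e1, neg_neg, ga, gna]
      ring
    · rw [gT b hb, gT (-b) (hc b hb)]
      exact hr b hb
  · intro b hb
    rcases hmem b hb with e1 | e1 | hb
    · rw [e1, ga]
      exact hxa
    · rw [e1, gna]
      exact hxb
    · rw [gT b hb]
      exact hs b hb
  · exact (subset_insert _ _).trans (subset_insert _ _)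

theorem exists_slopes (hF : (2 : F) ≠ 0) (hq : Fintype.card K % 4 = 3)
    (hm : 4 * Fintype.card F ≤ Fintype.card K) (ep : F → Bool) (h0 : ep 0 = sg (1 / 2 : K)) :
    ∃ g : F → K, Function.Injective g ∧ (∀ a, g a ≠ 0) ∧ (∀ a, g (-a) = 1 - g a) ∧
      ∀ a, sg (g a) = ep a := by
  have h2K : (2 : K) ≠ 0 := by
    refine Ring.two_ne_zero fun e => ?_
    have h1 := FiniteField.even_card_iff_char_two.1 e
    omega
  have key : ∀ S : Finset F, ∃ (T : Finset F) (g : F → K), SloP ep T g ∧ S ⊆ T := by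
    intro S
    induction S using Finset.induction_on with
    | empty =>
      refine ⟨{0}, fun _ => 1 / 2, ⟨mem_singleton_self _, ?_, ?_, ?_, ?_, ?_⟩, empty_subset _⟩
      · intro b hb
        rw [mem_singleton.1 hb, neg_zero]
        exact mem_singleton_self _
      · intro b hb c hc _
        rw [mem_singleton.1 hb, mem_singleton.1 hc]
      · intro b _
        exact one_div_ne_zero h2K
      · intro b _
        field_simp
        ring
      · intro b hb
        rw [mem_singleton.1 hb, h0]
    | insert a S _ ih =>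
      obtain ⟨T, g, hT, hS⟩ := ih
      by_cases ha : a ∈ T
      · exact ⟨T, g, hT, insert_subset ha hS⟩
      · obtain ⟨T', g', hT', hTT, ha'⟩ := slo_step hF h2K hq hm hT ha
        exact ⟨T', g', hT', insert_subset ha' (hS.trans hTT)⟩
  obtain ⟨T, g, ⟨-, -, hi, hn, hr, hs⟩, hT⟩ := key univ
  have hu : ∀ a, a ∈ T := fun a => hT (mem_univ a)
  exact ⟨g, fun b c e => hi b (hu b) c (hu c) e, fun a => hn a (hu a), fun a => hr a (hu a),
    fun a => hs a (hu a)⟩

end Pool.Agent.Lib.MP_dea8c9_co.MR
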