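import Pool.Agent.Lib.MP_dea8c9_co.MR.Defs

/-!
# Signs in a finite field with `q = 3 mod 4` elements

Mathlib: `FiniteField.isSquare_neg_one_iff`, `quadraticChar_apply`, `quadraticChar` is multiplicative, or directly:
the product of two nonsquares is a square (`FiniteField`, `quadraticChar_one_iff_isSquare`).
-/

set_option autoImplicit false

namespace Pool.Agent.Lib.MP_dea8c9_co.MR

variable {K : Type} [Field K] [Fintype K] [DecidableEq K]

private theorem sgn_key {x y : K} (hx : x ≠ 0) (hy : y ≠ 0) :
    IsSquare (x * y) ↔ (IsSquare x ↔ IsSquare y) := by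
  rw [← quadraticChar_one_iff_isSquare (mul_ne_zero hx hy), ← quadraticChar_one_iff_isSquare hx,
    ← quadraticChar_one_iff_isSquare hy, map_mul]
  rcases quadraticChar_dichotomy hx with h | h <;> rcases quadraticChar_dichotomy hy with h' | h' <;>
    rw [h, h'] <;> norm_num

/-- `sg` is multiplicative (as `==`) on nonzero elements (odd characteristic or not). -/
theorem sg_mul (hq : Fintype.card K % 4 = 3) {x y : K} (hx : x ≠ 0) (hy : y ≠ 0) :
    sg (x * y) = (sg x == sg y) := by
  have key := sgn_key hx hy
  unfold sg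
  by_cases a : IsSquare x <;> by_cases b : IsSquare y <;> simp [a, b, key]

theorem sg_neg (hq : Fintype.card K % 4 = 3) {x : K} (hx : x ≠ 0) : sg (-x) = !sg x := by
  have h1 : sg (-1 : K) = false := by
    unfold sg
    rw [decide_eq_false_iff_not, FiniteField.isSquare_neg_one_iff]
    simp [hq]
  rw [← neg_one_mul, sg_mul hq (neg_ne_zero.2 one_ne_zero) hx, h1]
  cases sg x <;> rfl

end Pool.Agent.Lib.MP_dea8c9_co.MR
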