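import Pool.Agent.Lib.MP_dea8c9_co.MR.Defs

/-!
# Elements with given signs of `x` and `1 - x`

`quadraticChar K = χ`: the number is `(1/4) * sum over x ≠ 0, 1 of (1 ± χ x) (1 ± χ (1 - x))`;
`sum χ = 0` (`quadraticChar_sum_zero`), `sum χ(x) χ(1-x) = -χ(-1) = 1` (`jacobiSum_nontrivial_inv`, or: for `x ≠ 0`
`χ(x) χ(1-x) = χ(x⁻¹ - 1)` and `x⁻¹ - 1` runs over all elements except `-1`).  The four numbers are
`(q-3)/4, (q-3)/4, (q-3)/4, (q+1)/4`.
-/

set_option autoImplicit false

namespace Pool.Agent.Lib.MP_dea8c9_co.MR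

open Finset

variable {K : Type} [Field K] [Fintype K] [DecidableEq K]

private def ev (t : Bool) : ℤ := if t then 1 else -1

private theorem one_add_ev (x : K) (hx : x ≠ 0) (t : Bool) :
    1 + ev t * quadraticChar K x = if sg x = t then 2 else 0 := by
  classical
  rw [quadraticChar_apply]
  unfold quadraticCharFun sg ev
  rw [if_neg hx]
  by_cases h : IsSquare x
  · cases t <;> simp [h]
  · cases t <;> simp [h]

theorem class_card (hq : Fintype.card K % 4 = 3) (t t' : Bool) :
    Fintype.card K ≤ 4 * (univ.filter fun x : K => x ≠ 0 ∧ x ≠ 1 ∧ sg x = t ∧ sg (1 - x) = t').card + 3 := by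
  classical
  have hchar : ringChar K ≠ 2 := by
    intro h
    have h1 := FiniteField.even_card_iff_char_two.1 h
    omega
  set χ := quadraticChar K with hχ
  have hsum : ∑ x, χ x = 0 := quadraticChar_sum_zero hchar
  have hsum' : ∑ x, χ (1 - x) = 0 := by
    rw [← hsum]
    exact Fintype.sum_equiv (Equiv.subLeft 1) _ _ fun x => rfl
  have hneg : χ (-1) = -1 := by
    rw [hχ, quadraticChar_neg_one_iff_not_isSquare, FiniteField.isSquare_neg_one_iff]
    omega
  have hJ : ∑ x, χ x * χ (1 - x) = 1 := by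
    have h1 := jacobiSum_nontrivial_inv (quadraticChar_ne_one hchar)
    rw [(quadraticChar_isQuadratic K).inv] at h1
    rw [jacobiSum] at h1
    rw [← hχ] at h1
    rw [h1, hneg, neg_neg]
  have hall : ∑ x, (1 + ev t * χ x) * (1 + ev t' * χ (1 - x)) = Fintype.card K + ev t * ev t' := by
    have h1 : ∀ x : K, (1 + ev t * χ x) * (1 + ev t' * χ (1 - x)) =
        1 + ev t * χ x + ev t' * χ (1 - x) + ev t * ev t' * (χ x * χ (1 - x)) := fun x => by ring
    simp_rw [h1]
    rw [Finset.sum_add_distrib, Finset.sum_add_distrib, Finset.sum_add_distrib, ← Finset.mul_sum, ← Finset.mul_sum,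
      ← Finset.mul_sum, hsum, hsum', hJ]
    simp
  have h0 : (1 + ev t * χ 0) * (1 + ev t' * χ (1 - 0)) = 1 + ev t' := by
    rw [sub_zero, map_one, MulChar.map_zero]
    ring
  have h1 : (1 + ev t * χ 1) * (1 + ev t' * χ (1 - 1)) = 1 + ev t := by
    rw [sub_self, map_one, MulChar.map_zero]
    ring
  have hsplit := Finset.add_sum_erase univ (fun x => (1 + ev t * χ x) * (1 + ev t' * χ (1 - x))) (mem_univ (0 : K))
  have hsplit2 := Finset.add_sum_erase (univ.erase (0 : K)) (fun x => (1 + ev t * χ x) * (1 + ev t' * χ (1 - x)))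
    (Finset.mem_erase.2 ⟨one_ne_zero, mem_univ (1 : K)⟩)
  rw [← hsplit2, hall, h0, h1] at hsplit
  have hN : ∑ x ∈ (univ.erase (0 : K)).erase 1, (1 + ev t * χ x) * (1 + ev t' * χ (1 - x)) =
      4 * ((univ.filter fun x : K => x ≠ 0 ∧ x ≠ 1 ∧ sg x = t ∧ sg (1 - x) = t').card : ℤ) := by
    have h2 : ∀ x ∈ (univ.erase (0 : K)).erase 1, (1 + ev t * χ x) * (1 + ev t' * χ (1 - x)) =
        if sg x = t ∧ sg (1 - x) = t' then 4 else 0 := by
      intro x hx
      rw [Finset.mem_erase, Finset.mem_erase] at hx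
      rw [hχ, one_add_ev x hx.2.1, one_add_ev (1 - x) (sub_ne_zero.2 (Ne.symm hx.1))]
      by_cases a : sg x = t <;> by_cases b : sg (1 - x) = t' <;> simp [a, b]
    rw [Finset.sum_congr rfl h2, ← Finset.sum_filter, Finset.sum_const, nsmul_eq_mul, mul_comm]
    congr 2
    have h3 : ((univ.erase (0 : K)).erase 1).filter (fun x => sg x = t ∧ sg (1 - x) = t') =
        univ.filter fun x : K => x ≠ 0 ∧ x ≠ 1 ∧ sg x = t ∧ sg (1 - x) = t' := by
      ext x
      simp only [Finset.mem_filter, Finset.mem_erase, mem_univ, true_and]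
      tauto
    rw [h3]
  rw [hN] at hsplit
  have : (Fintype.card K : ℤ) ≤ 4 * ((univ.filter fun x : K => x ≠ 0 ∧ x ≠ 1 ∧ sg x = t ∧ sg (1 - x) = t').card : ℤ) + 3 := by
    revert hsplit
    generalize ((univ.filter fun x : K => x ≠ 0 ∧ x ≠ 1 ∧ sg x = t ∧ sg (1 - x) = t').card : ℤ) = N
    unfold ev
    cases t <;> cases t' <;> simp <;> intro h <;> linarith
  exact_mod_cast this

end Pool.Agent.Lib.MP_dea8c9_co.MR
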