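import Pool.Agent.Lib.MP_dea8c9_co.MQBasic

/-!
# The recursion `m + 1 -> m q + 1` for mutually quasi-orthogonal latin squares: definitions

`F` is a finite field of odd order `m`, `K` a finite field of order `q`, `q = 3 mod 4`.  Rows, columns and symbols
of the new squares are the elements of `F x K` and one more element `none`.
-/

set_option autoImplicit false

namespace Pool.Agent.Lib.MP_dea8c9_co.MR

open Finset Pool.Agent.Lib.MP_dea8c9_co.MQ

variable {F K : Type} [Field F] [Fintype F] [DecidableEq F] [Field K] [Fintype K] [DecidableEq K]

open Classical in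
/-- the sign of an element of `K`: `true` for squares -/
noncomputable def sg (b : K) : Bool := decide (IsSquare b)

/-- the function `k_s a^2 + a/2 + e_s` -/
def al (k e : Bool → F) (s : Bool) (a : F) : F := k s * a ^ 2 + a / 2 + e s

/-- the symbol of the square `c` in the cell `(x, z), (y, z')` with `z ≠ z'` -/
noncomputable def off (k e : Bool → F) (mu : Bool → F → K) (c x y : F) (z z' : K) : F × K :=
  (y + c / 2 + al k e (sg (z - z')) (x - y - c), z' + mu (sg (z - z')) (x - y - c) * (z - z'))

/-- the embedding of the hole with index `z` -/
def fil (z : K) : Option F → Option (F × K)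
  | none => none
  | some v => some (v, z)

/-- the square with index `c`, holes filled by `L` -/
noncomputable def big (k e : Bool → F) (mu : Bool → F → K) (L : Sq (Option F)) (c : F) :
    Sq (Option (F × K))
  | none, none => none
  | some p, none => fil p.2 (L (some p.1) none)
  | none, some p => fil p.2 (L none (some p.1))
  | some p, some r => if p.2 = r.2 then fil p.2 (L (some p.1) (some r.1))
      else some (off k e mu c p.1 r.1 p.2 r.2)

/-- the conditions on the data -/
structure Good (k e : Bool → F) (mu : Bool → F → K) : Prop where
  kne : ∀ s, k s ≠ 0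
  inj : ∀ s, Function.Injective (mu s)
  ne0 : ∀ s a, mu s a ≠ 0
  refl : ∀ s a, mu s (-a) = 1 - mu s a
  bij : Function.Injective fun p : F × Bool => (al k e p.2 p.1, (sg (mu p.2 p.1) == p.2))

end Pool.Agent.Lib.MP_dea8c9_co.MR
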