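import Pool.Agent.Lib.MP_dea8c9_co.MR.Asm
import Pool.Agent.Lib.MP_dea8c9_co.MR.Tr3

/-!
# The recursion
-/

set_option autoImplicit false

namespace Pool.Agent.Lib.MP_dea8c9_co.MR

open Finset Pool.Agent.Lib.MP_dea8c9_co.MQ

theorem recursion_fields (F K : Type) [Field F] [Fintype F] [DecidableEq F] [Field K] [Fintype K]
    [DecidableEq K] (hF : (2 : F) ≠ 0) (hq : Fintype.card K % 4 = 3)
    (hm : 4 * Fintype.card F ≤ Fintype.card K) {N n n' : ℕ} (hN : N ≤ Fintype.card F)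
    (hn : n = Fintype.card F + 1) (hn' : n' = Fintype.card F * Fintype.card K + 1)
    {L : Fin N → Sq (Fin n)} (hL : IsMQOLS L) {i j u : Fin n} (hu : ∀ k, L k i j = u) :
    ∃ M : Fin N → Sq (Fin n'), IsMQOLS M ∧ ∃ i j u, ∀ k, M k i j = u := by
  obtain ⟨L1, h1, h2⟩ := move (β := Option F) (by simp [hn]) hL hu none
  obtain ⟨k, e, mu, hg⟩ := exists_good (F := F) (K := K) hF hq hm
  obtain ⟨c⟩ : Nonempty (Fin N ↪ F) := Function.Embedding.nonempty_of_card_le (by simpa using hN)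
  have h3 := big_MQOLS hF hq hg h1 h2 c c.injective
  have : NeZero n' := ⟨by omega⟩
  obtain ⟨M, h4, h5⟩ := move (β := Fin n') (by simp [hn']) h3 (i := none) (j := none) (u := none)
    (fun _ => rfl) 0
  exact ⟨M, h4, 0, 0, 0, h5⟩

/-- `m` an odd prime power, `q` a prime power, `q % 4 = 3`, `4 m ≤ q`, `N ≤ m`. -/
theorem recursion {m q N : ℕ} (hm : IsPrimePow m) (hm2 : Odd m) (hq : IsPrimePow q) (hq4 : q % 4 = 3)
    (hmq : 4 * m ≤ q) (hN : N ≤ m) {L : Fin N → Sq (Fin (m + 1))} (hL : IsMQOLS L)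
    {i j u : Fin (m + 1)} (hu : ∀ k, L k i j = u) :
    ∃ M : Fin N → Sq (Fin (m * q + 1)), IsMQOLS M ∧ ∃ i j u, ∀ k, M k i j = u := by
  classical
  obtain ⟨p, a, hp, ha, rfl⟩ := hm
  obtain ⟨r, b, hr, hb, rfl⟩ := hq
  have hp' : p.Prime := Nat.prime_iff.2 hp
  have hr' : r.Prime := Nat.prime_iff.2 hr
  haveI : Fact p.Prime := ⟨hp'⟩
  haveI : Fact r.Prime := ⟨hr'⟩
  haveI : Fintype (GaloisField p a) := Fintype.ofFinite _
  haveI : Fintype (GaloisField r b) := Fintype.ofFinite _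
  have c1 : Fintype.card (GaloisField p a) = p ^ a := by
    rw [← Nat.card_eq_fintype_card]; exact GaloisField.card p a (by omega)
  have c2 : Fintype.card (GaloisField r b) = r ^ b := by
    rw [← Nat.card_eq_fintype_card]; exact GaloisField.card r b (by omega)
  have hF : (2 : GaloisField p a) ≠ 0 := by
    intro h2
    have h3 : ((2 : ℕ) : GaloisField p a) = 0 := by exact_mod_cast h2
    rw [CharP.cast_eq_zero_iff (GaloisField p a) p 2] at h3
    have h4 : p = 2 := (Nat.prime_dvd_prime_iff_eq hp' Nat.prime_two).1 h3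
    rw [h4] at hm2
    exact (Nat.not_even_iff_odd.2 hm2) (Nat.even_pow.2 ⟨even_two, by omega⟩)
  exact recursion_fields (GaloisField p a) (GaloisField r b) hF (by rw [c2]; exact hq4)
    (by rw [c1, c2]; exact hmq) (by rw [c1]; exact hN) (by rw [c1]) (by rw [c1, c2]) hL hu

end Pool.Agent.Lib.MP_dea8c9_co.MR
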