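import Pool.Agent.Lib.MP_dea8c9_co.MR.Fin

/-!
# Starting sets: fields
-/

set_option autoImplicit false

namespace Pool.Agent.Lib.MP_dea8c9_co.MR

open Finset Pool.Agent.Lib.MP_dea8c9_co.MQ

theorem mqols_of_mols {α : Type} [Fintype α] [DecidableEq α] {N : ℕ} {L : Fin N → Sq α}
    (h : IsMOLS L) : IsMQOLS L :=
  ⟨h.1, fun k l hkl => ⟨fun u => h.2 k l hkl u u, fun u v _ => by
    rw [h.2 k l hkl u v, h.2 k l hkl v u]⟩⟩

/-- For a prime power `m + 1` there are `m` (quasi-)orthogonal latin squares of order `m + 1` which agree in one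
cell. -/
theorem agree_primePow {m : ℕ} (h : IsPrimePow (m + 1)) :
    ∃ L : Fin m → Sq (Fin (m + 1)), IsMQOLS L ∧ ∃ i j u, ∀ k, L k i j = u := by
  classical
  obtain ⟨p, r, hp, hr, hpr⟩ := h
  have hp' : p.Prime := Nat.prime_iff.2 hp
  have : Fact p.Prime := ⟨hp'⟩
  let F := GaloisField p r
  letI : Fintype F := Fintype.ofFinite F
  have hcard : Fintype.card F = m + 1 := by
    rw [← hpr, ← Nat.card_eq_fintype_card]; exact GaloisField.card p r (by omega)
  have hu : Fintype.card Fˣ = m := by rw [Fintype.card_units, hcard]; rfl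
  let f : Fin m ≃ Fˣ := (Fintype.equivFinOfCardEq hu).symm
  let e : F ≃ Fin (m + 1) := Fintype.equivFinOfCardEq hcard
  have h : IsMOLS (fun k : Fin m => (fun x y : F => ((f k : Fˣ) : F) * x + y : Sq F)) := by
    refine ⟨fun k => field_latin (f k).ne_zero, fun k l hkl => field_orth fun h => hkl ?_⟩
    exact f.injective (Units.ext h)
  exact ⟨_, tr_MQOLS e (mqols_of_mols h), e 0, e 0, e 0, fun k => by simp [tr]⟩

end Pool.Agent.Lib.MP_dea8c9_co.MR
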