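import Pool.Agent.Lib.MP_dea8c9_co.MR.Defs
import Pool.Agent.Lib.MP_dea8c9_co.MR.Sgn

/-!
# The squares are latin

Columns: with `a = x - y - c`, `b = z - z'` the symbol off the holes is `(y + c/2 + al s a, z' + mu s a * b)`, `s = sg b`.
The map `(a, b) -> (al (sg b) a, mu (sg b) a * b)` is injective for `b ≠ 0`: `sg (mu * b) = (sg mu == sg b)` is the
second component in `Good.bij`, so `(a, sg b)` is determined, then `b`.  Rows: the same symbol is
`(x - c/2 + al s (-a), z - mu s (-a) * b)` since `al s (-a) = al s a - a` and `mu s (-a) = 1 - mu s a`.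
Symbols off the holes in row `(x, z)` or column `(y, z')` have second coordinate different from `z`, `z'`
(as `mu ≠ 0`, `mu ≠ 1`), so they are different from the symbols in the hole (`none` or second coordinate `z`).
Finite, so injective = bijective (`Finite.injective_iff_bijective`).
-/

set_option autoImplicit false

namespace Pool.Agent.Lib.MP_dea8c9_co.MR

open Finset Pool.Agent.Lib.MP_dea8c9_co.MQ

variable {F K : Type} [Field F] [Fintype F] [DecidableEq F] [Field K] [Fintype K] [DecidableEq K]

theorem key_inj (hq : Fintype.card K % 4 = 3) {k e : Bool → F} {mu : Bool → F → K} (h : Good k e mu)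
    {a a' : F} {b b' : K} (hb : b ≠ 0) (hb' : b' ≠ 0)
    (h1 : al k e (sg b) a = al k e (sg b') a') (h2 : mu (sg b) a * b = mu (sg b') a' * b') :
    a = a' ∧ b = b' := by
  have e1 := sg_mul hq (h.ne0 (sg b) a) hb
  have e2 := sg_mul hq (h.ne0 (sg b') a') hb'
  rw [h2] at e1
  rw [e2] at e1
  have e3 : (a, sg b) = (a', sg b') := by
    apply h.bij
    simp only [Prod.mk.injEq]
    exact ⟨h1, e1.symm⟩
  rw [Prod.mk.injEq] at e3
  obtain ⟨rfl, e4⟩ := e3
  refine ⟨rfl, ?_⟩
  rw [← e4] at h2
  exact mul_left_cancel₀ (h.ne0 _ _) h2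

end Pool.Agent.Lib.MP_dea8c9_co.MR
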