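import Pool.Agent.Lib.MP_dea8c9_co.MR.Defs

/-!
# The signs, odd version

For a finite field `F` of odd characteristic `p`, `c ≠ 0`, `η : Bool` there is `ep : F → Bool` with
`ep 0 = η`, `ep c = η`, `ep (-a) = !ep a` for `a ≠ 0` and `ep (2 c - a) = !ep a` for `a ≠ c`.

Proof: let `lam : F → ZMod p` be linear over `ZMod p` with `lam (2 c) = 1`;
`h a = a - lam a • (2 c)`.  Then `h (-a) = -h a`, `h (2 c - a) = -h a`, `lam (2 c - a) = 1 - lam a`.  Let `o : F → Bool` be odd
on nonzero elements (as in the head of `Sig`).  Put `ep a = o (h a)` if `h a ≠ 0`; if `h a = 0` (so `a = lam a • 2c`): `ep a = η`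
if `(-(lam a)).val ≤ (p-1)/2` and `!η` otherwise: `t -> -t` changes this for `t ≠ 0`, `t -> 1 - t` changes it for
`t ≠ 1/2`, and `t = 0` (`a = 0`), `t = 1/2 = -(p-1)/2` (`a = c`) have the value `η`.
-/

set_option autoImplicit false

namespace Pool.Agent.Lib.MP_dea8c9_co.MR

variable {F : Type} [Field F] [Fintype F] [DecidableEq F]

/-- the prime field: with `t = -lam`, `P t = (t.val ≤ (p-1)/2)` changes under `t -> -t` (`t ≠ 0`) and under
`t -> -1 - t` (`2 t ≠ -1`) -/
private theorem val_neg_iff {p : ℕ} [Fact p.Prime] (hp : p % 2 = 1) {t : ZMod p} (ht : t ≠ 0) :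
    ((-t).val ≤ (p - 1) / 2) ↔ ¬ (t.val ≤ (p - 1) / 2) := by
  have : NeZero p := ⟨(Fact.out : p.Prime).ne_zero⟩
  have h1 : t.val < p := ZMod.val_lt t
  have h2 : 0 < t.val := Nat.pos_of_ne_zero fun h => ht ((ZMod.val_eq_zero t).1 h)
  have : NeZero t := ⟨ht⟩
  rw [ZMod.val_neg_of_ne_zero]
  omega

private theorem val_sub_iff {p : ℕ} [Fact p.Prime] (hp : p % 2 = 1) {t : ZMod p} (ht : 2 * t + 1 ≠ 0) :
    ((-1 - t).val ≤ (p - 1) / 2) ↔ ¬ (t.val ≤ (p - 1) / 2) := by
  have hp2 : 2 ≤ p := (Fact.out : p.Prime).two_le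
  have : NeZero p := ⟨(Fact.out : p.Prime).ne_zero⟩
  have h1 : t.val < p := ZMod.val_lt t
  have h3 : -1 - t = ((p - 1 - t.val : ℕ) : ZMod p) := by
    rw [Nat.cast_sub (by omega), Nat.cast_sub (by omega), ZMod.natCast_self, Nat.cast_one,
      ZMod.natCast_zmod_val]
    ring
  have h4 : (-1 - t).val = p - 1 - t.val := by
    rw [h3]
    exact ZMod.val_cast_of_lt (by omega)
  have h5 : 2 * t.val ≠ p - 1 := by
    intro h
    apply ht
    have h6 : ((2 * t.val + 1 : ℕ) : ZMod p) = ((p : ℕ) : ZMod p) := by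
      congr 1
      omega
    rw [ZMod.natCast_self] at h6
    push_cast at h6
    rw [ZMod.natCast_zmod_val] at h6
    exact h6
  rw [h4]
  omega

theorem sgn_two (hF : (2 : F) ≠ 0) {c : F} (hc : c ≠ 0) (η : Bool) :
    ∃ ep : F → Bool, ep 0 = η ∧ ep c = η ∧ (∀ a, a ≠ 0 → ep (-a) = !ep a) ∧
      ∀ a, a ≠ c → ep (2 * c - a) = !ep a := by
  classical
  obtain ⟨p, hp⟩ := CharP.exists F
  have hpp : p.Prime := CharP.char_is_prime F p
  have : Fact p.Prime := ⟨hpp⟩
  letI : Algebra (ZMod p) F := ZMod.algebra F p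
  have hp2 : p ≠ 2 := by
    rintro rfl
    apply hF
    have := CharP.cast_eq_zero F 2
    exact_mod_cast this
  have hodd : p % 2 = 1 := (hpp.eq_two_or_odd).resolve_left hp2
  obtain ⟨o, ho⟩ : ∃ o : F → Bool, ∀ x, x ≠ 0 → o (-x) = !(o x) := by
    refine ⟨fun x => decide (Fintype.equivFin F x < Fintype.equivFin F (-x)), fun x hx => ?_⟩
    have hne : Fintype.equivFin F x ≠ Fintype.equivFin F (-x) := by
      intro h
      have h2 : x = -x := (Fintype.equivFin F).injective h
      have h3 : (2 : F) * x = 0 := by linear_combination h2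
      rcases mul_eq_zero.1 h3 with h | h
      · exact hF h
      · exact hx h
    simp only [neg_neg]
    rcases lt_or_gt_of_ne hne with h | h
    · simp [h, not_lt.2 h.le]
    · simp [h, not_lt.2 h.le]
  obtain ⟨lam, hlam⟩ := Module.Projective.exists_dual_eq_one (ZMod p)
    (mul_ne_zero hF hc : (2 : F) * c ≠ 0)
  have h2p : (2 : ZMod p) ≠ 0 := by
    intro h
    apply hp2
    have h3 : ((2 : ℕ) : ZMod p) = 0 := by exact_mod_cast h
    rw [ZMod.natCast_eq_zero_iff] at h3
    exact (Nat.prime_dvd_prime_iff_eq hpp Nat.prime_two).1 h3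
  have hlc : 2 * lam c = 1 := by
    have h3 : (2 : F) * c = c + c := by ring
    rw [h3, map_add] at hlam
    linear_combination hlam
  let h : F → F := fun a => a - lam a • (2 * c)
  have hneg : ∀ a, h (-a) = -h a := by
    intro a
    show -a - lam (-a) • (2 * c) = -(a - lam a • (2 * c))
    rw [map_neg, neg_smul]
    ring
  have hrefl : ∀ a, h (2 * c - a) = -h a := by
    intro a
    show 2 * c - a - lam (2 * c - a) • (2 * c) = -(a - lam a • (2 * c))
    rw [map_sub, hlam, sub_smul, one_smul]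
    ring
  have hzero : ∀ a, h a = 0 → lam a = 0 → a = 0 := by
    intro a h1 h2
    have h3 : a - lam a • (2 * c) = 0 := h1
    rw [h2, zero_smul, sub_zero] at h3
    exact h3
  have hcen : ∀ a, h a = 0 → 2 * lam a = 1 → a = c := by
    intro a h1 h2
    have h3 : h (a - c) = 0 := by
      have h4 : h c = 0 := by
        show c - lam c • (2 * c) = 0
        have h5 : lam c • (2 * c) = (2 * lam c) • c := by
          have h6 : (2 : F) * c = c + c := by ring
          rw [h6, smul_add, two_mul, add_smul]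
        rw [h5, hlc, one_smul, sub_self]
      show a - c - lam (a - c) • (2 * c) = 0
      have h1' : a - lam a • (2 * c) = 0 := h1
      have h4' : c - lam c • (2 * c) = 0 := h4
      rw [map_sub, sub_smul]
      linear_combination h1' - h4'
    have h4 : lam (a - c) = 0 := by
      rw [map_sub]
      have h5 : 2 * (lam a - lam c) = 0 := by linear_combination h2 - hlc
      exact (mul_eq_zero.1 h5).resolve_left h2p
    exact sub_eq_zero.1 (hzero _ h3 h4)
  let ep : F → Bool := fun a =>
    if h a = 0 then (if (-(lam a)).val ≤ (p - 1) / 2 then η else !η) else o (h a)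
  have ep1 : ∀ a, h a = 0 → ep a = if (-(lam a)).val ≤ (p - 1) / 2 then η else !η :=
    fun a ha => if_pos ha
  have ep2 : ∀ a, h a ≠ 0 → ep a = o (h a) := fun a ha => if_neg ha
  have hh0 : h 0 = 0 := by
    show (0 : F) - lam 0 • (2 * c) = 0
    rw [map_zero, zero_smul, sub_zero]
  have hhc : h c = 0 := by
    show c - lam c • (2 * c) = 0
    have h5 : lam c • (2 * c) = (2 * lam c) • c := by
      have h6 : (2 : F) * c = c + c := by ring
      rw [h6, smul_add, two_mul, add_smul]
    rw [h5, hlc, one_smul, sub_self]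
  have flip : ∀ (A B : Prop) [Decidable A] [Decidable B], (A ↔ ¬ B) →
      (if A then η else !η) = !(if B then η else !η) := by
    intro A B _ _ hAB
    by_cases hB : B
    · rw [if_pos hB, if_neg (fun hA => hAB.1 hA hB)]
    · rw [if_neg hB, if_pos (hAB.2 hB), Bool.not_not]
  refine ⟨ep, ?_, ?_, ?_, ?_⟩
  · rw [ep1 0 hh0, map_zero, neg_zero, ZMod.val_zero, if_pos (Nat.zero_le _)]
  · rw [ep1 c hhc]
    have h5 : -(lam c) = (((p - 1) / 2 : ℕ) : ZMod p) := by
      have h6 : 2 * (-(lam c)) = 2 * (((p - 1) / 2 : ℕ) : ZMod p) := by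
        have h7 : ((2 * ((p - 1) / 2) + 1 : ℕ) : ZMod p) = ((p : ℕ) : ZMod p) := by
          congr 1
          omega
        rw [ZMod.natCast_self] at h7
        push_cast at h7
        push_cast
        linear_combination -hlc - h7
      exact mul_left_cancel₀ h2p h6
    rw [h5, ZMod.val_cast_of_lt (by omega), if_pos le_rfl]
  · intro a ha
    by_cases h1 : h a = 0
    · rw [ep1 a h1, ep1 (-a) (by rw [hneg, h1, neg_zero]), map_neg]
      apply flip
      apply val_neg_iff hodd
      intro h2
      exact ha (hzero a h1 (neg_eq_zero.1 h2))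
    · rw [ep2 a h1, ep2 (-a) (by rw [hneg]; exact neg_ne_zero.2 h1), hneg]
      exact ho _ h1
  · intro a ha
    by_cases h1 : h a = 0
    · rw [ep1 a h1, ep1 (2 * c - a) (by rw [hrefl, h1, neg_zero]), map_sub, hlam]
      have h3 : -(1 - lam a) = -1 - (-(lam a)) := by ring
      rw [h3]
      apply flip
      apply val_sub_iff hodd
      intro h2
      apply ha
      apply hcen a h1
      linear_combination -h2
    · rw [ep2 a h1, ep2 (2 * c - a) (by rw [hrefl]; exact neg_ne_zero.2 h1), hrefl]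
      exact ho _ h1

end Pool.Agent.Lib.MP_dea8c9_co.MR
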